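import Pool.Agent.H93.CP.Targets

/-!
# cpt_modules, row CAN (helper95): from a compact zero-dimensional space to the Cantor space
-/

set_option autoImplicit false

open Set Filter Topology Pool.Agent.H93.CP

namespace Pool.Agent.H95.CPT

/-- the group of homeomorphisms of the Cantor space -/
abbrev Lam : Type := HC (ℕ → Bool) Unit

/-- the action on the Cantor space -/
def act {K Γ : Type} [TopologicalSpace K] [Group Γ] [MulAction Γ K]
    (e : K × (ℕ → Bool) ≃ₜ (ℕ → Bool)) : MulAction (Γ × Lam) (ℕ → Bool) where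
  smul d x := e (d.1 • (e.symm x).1, d.2.h (e.symm x).2)
  one_smul x := by
    change e ((1 : Γ) • (e.symm x).1, (1 : Lam).h (e.symm x).2) = x
    rw [one_smul, HC.one_h, Prod.mk.eta, Homeomorph.apply_symm_apply]
  mul_smul a b x := by
    change e ((a.1 * b.1) • (e.symm x).1, (a.2 * b.2).h (e.symm x).2) =
      e (a.1 • (e.symm (e (b.1 • (e.symm x).1, b.2.h (e.symm x).2))).1,
        a.2.h (e.symm (e (b.1 • (e.symm x).1, b.2.h (e.symm x).2))).2)
    rw [Homeomorph.symm_apply_apply, mul_smul, HC.mul_h]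

lemma nonArch_unit : NonArch Unit := by
  intro U hU
  refine ⟨⊤, by simp, fun x _ => ?_⟩
  have h1 : x = (1 : Unit) := Subsingleton.elim _ _
  rw [h1]
  exact mem_of_mem_nhds hU

lemma nonArch_prod {G H : Type} [Group G] [TopologicalSpace G] [Group H] [TopologicalSpace H]
    (hG : NonArch G) (hH : NonArch H) : NonArch (G × H) := by
  intro U hU
  have h1 : (1 : G × H) = ((1 : G), (1 : H)) := rfl
  rw [h1, mem_nhds_prod_iff] at hU
  obtain ⟨u, hu, v, hv, huv⟩ := hU
  obtain ⟨A, hA, hAu⟩ := hG u hu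
  obtain ⟨B, hB, hBv⟩ := hH v hv
  refine ⟨A.prod B, ?_, ?_⟩
  · rw [Subgroup.coe_prod]
    exact hA.prod hB
  · rw [Subgroup.coe_prod]
    exact (Set.prod_mono hAu hBv).trans huv

theorem pf_CAN (hBRO : T_BRO) (hHTG : T_HTG) (hHPO : T_HPO) (hHNA : T_HNA) (hXOR : T_XOR) :
    T_CAN := by
  intro K Γ _ _ _ _ _ _ _ _ _ _ _ _ _ hc
  obtain ⟨e⟩ := hBRO K
  obtain ⟨hTG, hact, -⟩ := hHTG (ℕ → Bool) Unit
  have hPol := hHPO (ℕ → Bool) Unit
  obtain ⟨τ, -, hτ⟩ := hXOR
  letI M : MulAction (Γ × Lam) (ℕ → Bool) := act e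
  have hsm : ∀ (d : Γ × Lam) (x : ℕ → Bool),
      d • x = e (d.1 • (e.symm x).1, d.2.h (e.symm x).2) := fun _ _ => rfl
  have hsm' : ∀ (d : Γ × Lam) (y : K) (c : ℕ → Bool), d • (e (y, c)) = e (d.1 • y, d.2.h c) := by
    intro d y c
    rw [hsm, Homeomorph.symm_apply_apply]
  have hτi : ∀ c : ℕ → Bool, ((τ c)⁻¹ : Lam).h c = fun _ => false := by
    intro c
    rw [HC.inv_h, Homeomorph.symm_apply_eq, hτ]
  refine ⟨Γ × Lam, inferInstance, inferInstance, inferInstance, inferInstance, M, ?_, ?_, ?_, ?_⟩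
  · change Continuous (fun p : (Γ × Lam) × (ℕ → Bool) =>
      e (p.1.1 • (e.symm p.2).1, p.1.2.h (e.symm p.2).2))
    apply e.continuous.comp
    apply Continuous.prodMk
    · exact hc.comp ((continuous_fst.comp continuous_fst).prodMk
        (continuous_fst.comp (e.symm.continuous.comp continuous_snd)))
    · exact hact.comp ((continuous_snd.comp continuous_fst).prodMk
        (continuous_snd.comp (e.symm.continuous.comp continuous_snd)))
  · intro hΓ
    exact nonArch_prod hΓ (hHNA (ℕ → Bool) Unit nonArch_unit)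
  · constructor
    · rintro ⟨A, hA, hAx⟩
      refine ⟨(fun x => (e.symm x).1) '' A, hA.image _, fun y => ?_⟩
      obtain ⟨d, hd⟩ := hAx (e (y, fun _ => false))
      refine ⟨d.1, d • (e (y, fun _ => false)), hd, ?_⟩
      rw [hsm']
      change (e.symm (e (d.1 • y, d.2.h fun _ => false))).1 = d.1 • y
      rw [Homeomorph.symm_apply_apply]
    · rintro ⟨A, hA, hAy⟩
      refine ⟨(fun y => e (y, fun _ => false)) '' A, hA.image _, fun x => ?_⟩
      obtain ⟨g, hg⟩ := hAy (e.symm x).1
      refine ⟨(g, (τ (e.symm x).2)⁻¹), g • (e.symm x).1, hg, ?_⟩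
      rw [hsm, hτi]
  · constructor
    · rintro ⟨f, hf, hfu⟩
      refine ⟨fun u => (e.symm (f u)).1, ?_, ?_⟩
      · exact ((continuous_fst.comp e.symm.continuous).measurable).comp hf
      · intro u v huv g hg
        apply hfu u v huv (g, τ (e.symm (f v)).2 * (τ (e.symm (f u)).2)⁻¹)
        rw [hsm, HC.mul_h, hτi, hτ]
        change e (g • (e.symm (f u)).1, (e.symm (f v)).2) = f v
        rw [hg, Prod.mk.eta, Homeomorph.apply_symm_apply]
    · rintro ⟨f, hf, hfu⟩
      refine ⟨fun u => e (f u, fun _ => false), ?_, ?_⟩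
      · exact e.continuous.measurable.comp (hf.prodMk measurable_const)
      · intro u v huv d hd
        rw [hsm'] at hd
        have h2 := e.injective hd
        exact hfu u v huv d.1 (congrArg Prod.fst h2)

end Pool.Agent.H95.CPT
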