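import Pool.Agent.H93.CP.Targets2

/-!
# cpt_modules, row RMC (helper95): a copy of the Cantor space outside a countable set
-/

set_option autoImplicit false

open Set Filter Topology Pool.Agent.H93.CP

namespace Pool.Agent.H95.CPT

theorem pf_RMC : T_RMC := by
  intro A hA
  have hO : ((fun x : ℕ → Bool => fun n : ℕ => x (2 * n + 1)) '' A).Countable := hA.image _
  obtain ⟨t, ht⟩ : ∃ t : ℕ → Bool, t ∉ (fun x : ℕ → Bool => fun n : ℕ => x (2 * n + 1)) '' A := by
    by_contra hcon
    push Not at hcon
    obtain ⟨f, hf⟩ := hO.exists_eq_range ⟨fun _ => true, hcon _⟩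
    obtain ⟨n, hn⟩ : ∃ n, f n = fun k => !(f k k) := by
      have h1 := hcon (fun k => !(f k k))
      rw [hf] at h1
      exact h1
    have h2 := congrFun hn n
    simp at h2
  refine ⟨fun s n => if n % 2 = 0 then s (n / 2) else t (n / 2), ?_, ?_, ?_⟩
  · refine continuous_pi (fun n => ?_)
    by_cases hn : n % 2 = 0
    · simp only [hn, if_true]
      exact continuous_apply _
    · simp only [hn, if_false]
      exact continuous_const
  · intro s s' h
    funext n
    have h1 := congrFun h (2 * n)
    have h2 : 2 * n % 2 = 0 := by omega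
    have h3 : 2 * n / 2 = n := by omega
    simp only [h2, if_true, h3] at h1
    exact h1
  · intro u hu
    apply ht
    refine ⟨_, hu, ?_⟩
    funext n
    have h2 : ¬ (2 * n + 1) % 2 = 0 := by omega
    have h3 : (2 * n + 1) / 2 = n := by omega
    simp only [h2, if_false, h3]

end Pool.Agent.H95.CPT
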